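import Pool.Agent.Run7.h515.LR.Geo

set_option autoImplicit false

/-!
# Polynomials of degree at most `j` on locally convex families

A function on such a family whose differences along all cubes of dimension `j + 1` vanish is a
polynomial of degree at most `j` of the characteristic vector.
-/

namespace Pool.Agent.Run7.h515.LR

open Finset

/-- few classes -/
lemma few_classes' {X ι : Type*} [DecidableEq ι] (J : Finset ι) (T : Finset ℝ) (N : ℕ)
    (hN : 1 ≤ N)
    (hT : T.card ≤ N) (n : ℕ) (hJ : J.card ≤ n) (v : X → ι → ℝ) (hv : ∀ x q, v x q ∈ T) :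
    ∃ g : X → ℕ, (∀ x, g x < N ^ n) ∧ ∀ x x', g x = g x' → ∀ q ∈ J, v x q = v x' q := by
  classical
  let h : X → (J → T) := fun x q => ⟨v x q.1, hv x q.1⟩
  refine ⟨fun x => (Fintype.equivFin (J → T) (h x) : ℕ), fun x => ?_, fun x x' he q hq => ?_⟩
  · refine (Fintype.equivFin (J → T) (h x)).2.trans_le ?_
    rw [Fintype.card_fun, Fintype.card_coe, Fintype.card_coe]
    calc T.card ^ J.card ≤ N ^ J.card := Nat.pow_le_pow_left hT _
      _ ≤ N ^ n := Nat.pow_le_pow_right hN hJ
  · have h1 : h x = h x' := (Fintype.equivFin (J → T)).injective (Fin.ext he)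
    exact congrArg Subtype.val (congrFun h1 ⟨q, hq⟩)

variable {Y : Type*} {d : ℕ}

/-- the family of the patterns is closed under intersection and locally a convex geometry -/
structure LCG (pat : Y → Finset (Fin d)) : Prop where
  meet : ∀ y y', ∃ y'', pat y'' = pat y ∩ pat y'
  step : ∀ y y', pat y' ⊂ pat y → ∃ j ∈ pat y, j ∉ pat y' ∧ ∃ y'', pat y'' = (pat y).erase j

/-- the support of a list -/
def supp {m : ℕ} (q : Fin m → Option (Fin d)) : Finset (Fin d) :=
  univ.filter fun i => ∃ t, q t = some i

lemma supp_card {m : ℕ} (q : Fin m → Option (Fin d)) : (supp q).card ≤ m := by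
  classical
  have h1 : (supp q).card ≤ (univ.image q).card := by
    refine card_le_card_of_injOn (fun i => some i) (fun i hi => ?_) (fun i _ i' _ h => ?_)
    · obtain ⟨t, ht⟩ := (mem_filter.1 hi).2
      rw [mem_coe, mem_image]
      exact ⟨t, mem_univ _, ht⟩
    · exact Option.some_injective _ h
  exact h1.trans (card_image_le.trans (by simp))

lemma exists_supp {m : ℕ} (S : Finset (Fin d)) (h : S.card ≤ m) :
    ∃ q : Fin m → Option (Fin d), supp q = S := by
  classical
  refine ⟨fun t => if h : t.1 < S.card then some (S.orderEmbOfFin rfl ⟨t.1, h⟩) else none, ?_⟩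
  ext i
  simp only [supp, mem_filter, mem_univ, true_and]
  constructor
  · rintro ⟨t, ht⟩
    by_cases h1 : t.1 < S.card
    · rw [dif_pos h1] at ht
      rw [← Option.some_injective _ ht]
      exact S.orderEmbOfFin_mem rfl _
    · rw [dif_neg h1] at ht
      exact absurd ht (by simp)
  · intro hi
    have h1 : i ∈ Set.range (S.orderEmbOfFin rfl) := by
      rw [range_orderEmbOfFin]
      exact hi
    obtain ⟨t, ht⟩ := h1
    refine ⟨⟨t.1, lt_of_lt_of_le t.2 h⟩, ?_⟩
    rw [dif_pos t.2]
    exact congrArg some ht

/-- a monomial -/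
noncomputable def mono (pat : Y → Finset (Fin d)) (S : Finset (Fin d)) : Y → ℝ :=
  fun y => if S ⊆ pat y then 1 else 0

lemma mono_mul (pat : Y → Finset (Fin d)) (S S' : Finset (Fin d)) :
    mono pat S * mono pat S' = mono pat (S ∪ S') := by
  funext y
  simp only [Pi.mul_apply, mono]
  by_cases h : S ⊆ pat y <;> by_cases h' : S' ⊆ pat y <;> simp [h, h', union_subset_iff]

/-- the polynomials of degree at most `m` -/
def Wd (pat : Y → Finset (Fin d)) (m : ℕ) : Submodule ℝ (Y → ℝ) :=
  Submodule.span ℝ {u | ∃ S : Finset (Fin d), S.card ≤ m ∧ u = mono pat S}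

lemma mono_mem {pat : Y → Finset (Fin d)} {m : ℕ} {S : Finset (Fin d)} (h : S.card ≤ m) :
    mono pat S ∈ Wd pat m := Submodule.subset_span ⟨S, h, rfl⟩

lemma one_mem (pat : Y → Finset (Fin d)) (m : ℕ) : (1 : Y → ℝ) ∈ Wd pat m := by
  have h : (1 : Y → ℝ) = mono pat ∅ := by
    funext y
    simp [mono]
  rw [h]
  exact mono_mem (by simp)

lemma Wd_mono (pat : Y → Finset (Fin d)) {m n : ℕ} (h : m ≤ n) : Wd pat m ≤ Wd pat n := by
  refine Submodule.span_mono ?_
  rintro u ⟨S, hS, rfl⟩
  exact ⟨S, hS.trans h, rfl⟩

lemma mul_mem_Wd {pat : Y → Finset (Fin d)} {m n : ℕ} {u v : Y → ℝ} (hu : u ∈ Wd pat m)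
    (hv : v ∈ Wd pat n) : u * v ∈ Wd pat (m + n) := by
  have h := Submodule.mul_mem_mul hu hv
  unfold Wd at h
  rw [Submodule.span_mul_span] at h
  refine (Submodule.span_le.2 ?_) h
  rintro w ⟨u', ⟨S, hS, rfl⟩, v', ⟨S', hS', rfl⟩, rfl⟩
  simp only
  rw [mono_mul]
  exact mono_mem ((card_union_le _ _).trans (by omega))

/-- a cube of dimension `j + 1` -/
structure Cube (pat : Y → Finset (Fin d)) (j : ℕ) where
  /-- the directions -/
  T : Finset (Fin d)
  /-- the vertices -/
  c : Finset (Fin d) → Y
  card : T.card = j + 1
  sub : T ⊆ pat (c ∅)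
  pat_eq : ∀ T' ⊆ T, pat (c T') = pat (c ∅) \ T'

/-- the difference along a cube -/
noncomputable def cubeL {pat : Y → Finset (Fin d)} {j : ℕ} (q : Cube pat j) : (Y → ℝ) →ₗ[ℝ] ℝ :=
  ∑ T' ∈ q.T.powerset, ((-1 : ℝ) ^ T'.card) • (LinearMap.proj (q.c T') : (Y → ℝ) →ₗ[ℝ] ℝ)

lemma cubeL_apply {pat : Y → Finset (Fin d)} {j : ℕ} (q : Cube pat j) (u : Y → ℝ) :
    cubeL q u = ∑ T' ∈ q.T.powerset, (-1 : ℝ) ^ T'.card * u (q.c T') := by
  unfold cubeL
  rw [LinearMap.sum_apply]
  rfl

lemma cubeL_pair {pat : Y → Finset (Fin d)} {j : ℕ} (q : Cube pat j) (u : Y → ℝ) {a : Fin d}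
    (ha : a ∈ q.T) :
    cubeL q u = ∑ T' ∈ (q.T.erase a).powerset, (-1 : ℝ) ^ T'.card *
      (u (q.c T') - u (q.c (insert a T'))) := by
  classical
  rw [cubeL_apply]
  have h1 : q.T = insert a (q.T.erase a) := (insert_erase ha).symm
  conv_lhs => rw [h1]
  rw [Finset.sum_powerset_insert (notMem_erase a _), ← Finset.sum_add_distrib]
  refine Finset.sum_congr rfl fun T' hT' => ?_
  have h2 : a ∉ T' := fun h => notMem_erase a _ (mem_powerset.1 hT' h)
  rw [card_insert_of_notMem h2, pow_succ]
  ring

lemma cubeL_Wd {pat : Y → Finset (Fin d)} {j : ℕ} (q : Cube pat j) {u : Y → ℝ}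
    (hu : u ∈ Wd pat j) : cubeL q u = 0 := by
  classical
  unfold Wd at hu
  induction hu using Submodule.span_induction with
  | zero => exact map_zero _
  | add u v _ _ hu hv => rw [map_add, hu, hv, add_zero]
  | smul a u _ hu => rw [map_smul, hu, smul_zero]
  | mem u h =>
    obtain ⟨S, hS, rfl⟩ := h
    obtain ⟨a, ha, haS⟩ := exists_mem_notMem_of_card_lt_card (s := S) (t := q.T)
      (by rw [q.card]; omega)
    rw [cubeL_pair q _ ha]
    refine Finset.sum_eq_zero fun T' hT' => ?_
    have hT1 : T' ⊆ q.T := (mem_powerset.1 hT').trans (erase_subset _ _)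
    have hT2 : insert a T' ⊆ q.T := insert_subset ha hT1
    have : mono pat S (q.c T') = mono pat S (q.c (insert a T')) := by
      unfold mono
      rw [q.pat_eq _ hT1, q.pat_eq _ hT2]
      have : S ⊆ pat (q.c ∅) \ T' ↔ S ⊆ pat (q.c ∅) \ insert a T' := by
        constructor
        · intro h i hi
          have := h hi
          rw [mem_sdiff] at this ⊢
          refine ⟨this.1, fun hh => ?_⟩
          rcases mem_insert.1 hh with rfl | hh
          · exact haS hi
          · exact this.2 hh
        · intro h i hi
          have := h hi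
          rw [mem_sdiff] at this ⊢
          exact ⟨this.1, fun hh => this.2 (mem_insert_of_mem hh)⟩
      by_cases hh : S ⊆ pat (q.c ∅) \ T'
      · rw [if_pos hh, if_pos (this.1 hh)]
      · rw [if_neg hh, if_neg fun h => hh (this.2 h)]
    rw [this, sub_self, mul_zero]

/-- the removable elements -/
noncomputable def ext (pat : Y → Finset (Fin d)) (C : Finset (Fin d)) : Finset (Fin d) := by
  classical exact C.filter fun j => ∃ y, pat y = C.erase j

section deg

variable {pat : Y → Finset (Fin d)} (h : LCG pat)

include h in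
/-- a member which contains the removable elements of `C` contains `C` -/
lemma ext_sub {y z : Y} (hz : ext pat (pat y) ⊆ pat z) : pat y ⊆ pat z := by
  classical
  obtain ⟨t, ht⟩ := h.meet y z
  by_contra hcon
  have h1 : pat t ⊂ pat y := by
    rw [ht]
    refine ⟨inter_subset_left, fun hh => hcon fun i hi => (mem_inter.1 (hh hi)).2⟩
  obtain ⟨j, hj, hjt, hy''⟩ := h.step y t h1
  have : j ∈ ext pat (pat y) := by
    unfold ext
    rw [mem_filter]
    exact ⟨hj, hy''⟩
  exact hjt (by rw [ht]; exact mem_inter.2 ⟨hj, hz this⟩)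

include h in
lemma exists_face {y : Y} : ∀ T' : Finset (Fin d), T' ⊆ ext pat (pat y) → ∃ z, pat z = pat y \ T' := by
  classical
  intro T'
  induction T' using Finset.induction_on with
  | empty => intro _; exact ⟨y, by simp⟩
  | insert t T' _ ih =>
    intro hT
    obtain ⟨z, hz⟩ := ih ((subset_insert _ _).trans hT)
    have ht : t ∈ ext pat (pat y) := hT (mem_insert_self _ _)
    unfold ext at ht
    obtain ⟨-, z', hz'⟩ := mem_filter.1 ht
    obtain ⟨z'', hz''⟩ := h.meet z z'
    refine ⟨z'', ?_⟩
    rw [hz'', hz, hz']
    ext i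
    simp only [mem_inter, mem_sdiff, mem_erase, mem_insert, not_or]
    tauto

include h in
/-- **Vanishing differences of order `j + 1` imply degree at most `j`.** -/
theorem deg_le {j : ℕ} (u : Y → ℝ) (hfib : ∀ y y', pat y = pat y' → u y = u y')
    (hcube : ∀ q : Cube pat j, cubeL q u = 0) : u ∈ Wd pat j := by
  classical
  have key : ∀ m : ℕ, ∃ w ∈ Wd pat j, ∀ y, (pat y).card < m → u y = w y := by
    intro m
    induction m with
    | zero => exact ⟨0, Submodule.zero_mem _, fun y hy => by omega⟩
    | succ m ih =>
      obtain ⟨w, hw, hwy⟩ := ih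
      have hwf : ∀ y y', pat y = pat y' → w y = w y' := by
        intro y y' hyy
        clear hwy
        unfold Wd at hw
        induction hw using Submodule.span_induction with
        | zero => rfl
        | add u v _ _ hu hv => simp only [Pi.add_apply, hu, hv]
        | smul a u _ hu => simp only [Pi.smul_apply, hu]
        | mem u h =>
          obtain ⟨S, hS, rfl⟩ := h
          simp only [mono, hyy]
      let v : Y → ℝ := fun y => u y - w y
      have hvf : ∀ y y', pat y = pat y' → v y = v y' := fun y y' hyy => by
        simp only [v, hfib y y' hyy, hwf y y' hyy]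
      have hv0 : ∀ y, (pat y).card < m → v y = 0 := fun y hy => sub_eq_zero.2 (hwy y hy)
      have hvc : ∀ q : Cube pat j, cubeL q v = 0 := by
        intro q
        have : v = u - w := rfl
        rw [this, map_sub, hcube q, cubeL_Wd q hw, sub_zero]
      let val : Finset (Fin d) → ℝ := fun C => if hC : ∃ y, pat y = C then v hC.choose else 0
      have hval : ∀ y, val (pat y) = v y := by
        intro y
        have hC : ∃ y', pat y' = pat y := ⟨y, rfl⟩
        simp only [val, dif_pos hC]
        exact hvf _ _ hC.choose_spec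
      let R : Finset (Finset (Fin d)) := univ.filter fun C => C.card = m ∧ (∃ y, pat y = C) ∧
        (ext pat C).card ≤ j
      refine ⟨w + ∑ C ∈ R, val C • mono pat (ext pat C), Submodule.add_mem _ hw
        (Submodule.sum_mem _ fun C hC => Submodule.smul_mem _ _
          (mono_mem (mem_filter.1 hC).2.2.2)), fun y hy => ?_⟩
      have hzero : ∀ C ∈ R, C ≠ pat y → mono pat (ext pat C) y = 0 := by
        intro C hC hne
        obtain ⟨-, hCm, ⟨z, rfl⟩, -⟩ := mem_filter.1 hC
        unfold mono
        rw [if_neg]
        intro hsub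
        have h1 := ext_sub h hsub
        exact hne (eq_of_subset_of_card_le h1 (by omega))
      have hval2 : v y = ∑ C ∈ R, val C * mono pat (ext pat C) y := by
        by_cases hR : pat y ∈ R
        · rw [Finset.sum_eq_single (pat y) (fun C hC hne => by rw [hzero C hC hne, mul_zero])
            (fun hh => absurd hR hh), hval]
          have : mono pat (ext pat (pat y)) y = 1 := by
            unfold mono
            rw [if_pos]
            unfold ext
            exact filter_subset _ _
          rw [this, mul_one]
        · rw [Finset.sum_eq_zero fun C hC => by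
            rw [hzero C hC (fun hh => hR (hh ▸ hC)), mul_zero]]
          by_cases hm : (pat y).card < m
          · exact hv0 y hm
          · have hm' : (pat y).card = m := by omega
            have hj : j + 1 ≤ (ext pat (pat y)).card := by
              by_contra hcon
              exact hR (mem_filter.2 ⟨mem_univ _, hm', ⟨y, rfl⟩, by omega⟩)
            obtain ⟨T, hT, hTc⟩ := exists_subset_card_eq hj
            have hf := fun (T' : Finset (Fin d)) (hT' : T' ⊆ T) => exists_face h (y := y) T'
              (hT'.trans hT)
            let c : Finset (Fin d) → Y := fun T' => if hT' : T' ⊆ T then (hf T' hT').choose else y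
            have hc : ∀ T' ⊆ T, pat (c T') = pat y \ T' := by
              intro T' hT'
              simp only [c, dif_pos hT']
              exact (hf T' hT').choose_spec
            have hc0 : pat (c ∅) = pat y := by rw [hc ∅ (empty_subset _), sdiff_empty]
            have hTy : T ⊆ pat y := by
              refine hT.trans ?_
              unfold ext
              exact filter_subset _ _
            let q : Cube pat j := ⟨T, c, hTc, by rw [hc0]; exact hTy, fun T' hT' => by
              rw [hc0, hc T' hT']⟩
            have h1 := hvc q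
            rw [cubeL_apply, Finset.sum_eq_single ∅] at h1
            · simp only [card_empty, pow_zero, one_mul] at h1
              rw [← hvf (c ∅) y hc0]
              exact h1
            · intro T' hT' hne
              have hT'' : T' ⊆ T := mem_powerset.1 hT'
              have h2 : (pat (q.c T')).card < m := by
                change (pat (c T')).card < m
                rw [hc T' hT'', ← hm']
                refine card_lt_card ⟨sdiff_subset, fun hh => ?_⟩
                obtain ⟨i, hi⟩ := nonempty_iff_ne_empty.2 hne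
                have := hh (hTy (hT'' hi))
                exact (mem_sdiff.1 this).2 hi
              rw [hv0 _ h2, mul_zero]
            · intro hh
              exact absurd (empty_mem_powerset _) hh
      have h3 : (∑ C ∈ R, val C • mono pat (ext pat C)) y =
          ∑ C ∈ R, val C * mono pat (ext pat C) y := by
        rw [Finset.sum_apply]
        rfl
      rw [Pi.add_apply, h3, ← hval2]
      simp only [v]
      ring
  obtain ⟨w, hw, hwy⟩ := key (d + 1)
  have : u = w := by
    funext y
    refine hwy y ?_
    have := card_le_univ (pat y)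
    rw [Fintype.card_fin] at this
    omega
  rw [this]
  exact hw

end deg

/-- the differences of Boolean functions along cubes are small integers -/
lemma cubeL_bool {pat : Y → Finset (Fin d)} {j : ℕ} (q : Cube pat j) (f : Y → Bool) :
    ∃ n : ℤ, cubeL q (fun y => chi (f y)) = n ∧ |n| ≤ 2 ^ j := by
  classical
  have hne : q.T.Nonempty := by
    rw [← card_pos, q.card]
    omega
  obtain ⟨a, ha⟩ := hne
  refine ⟨∑ T' ∈ (q.T.erase a).powerset, (-1 : ℤ) ^ T'.card *
    ((if f (q.c T') then 1 else 0) - (if f (q.c (insert a T')) then 1 else 0)), ?_, ?_⟩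
  · rw [cubeL_pair q _ ha]
    push_cast
    refine Finset.sum_congr rfl fun T' _ => ?_
    unfold chi
    rfl
  · refine (Finset.abs_sum_le_sum_abs _ _).trans ?_
    have h1 : ∀ T' ∈ (q.T.erase a).powerset, |(-1 : ℤ) ^ T'.card *
        ((if f (q.c T') then 1 else 0) - (if f (q.c (insert a T')) then 1 else 0))| ≤ 1 := by
      intro T' _
      rw [abs_mul, abs_pow, abs_neg, abs_one, one_pow, one_mul]
      split <;> split <;> norm_num
    refine (Finset.sum_le_card_nsmul _ _ _ h1).trans ?_
    rw [card_powerset, card_erase_of_mem ha, q.card]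
    simp

end Pool.Agent.Run7.h515.LR
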