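import Pool.Agent.Run7.h515.LR.Geo
import Pool.Agent.Q174.AF.Cor

set_option autoImplicit false

/-!
# Protocols for matrices of rank `d + k` with `d` rows whose patterns are locally a convex geometry
-/

namespace Pool.Agent.Run7.h515.LR

open Finset Pool.Agent.Q174.TD Pool.Agent.Q174.AF

lemma prot_swap {X Y : Type*} {F : X → Y → Bool} {c : ℕ} {A : Set X} {B : Set Y}
    (h : Prot F c A B) : Prot (fun y x => F x y) c B A := by
  induction h with
  | const c A B b hb => exact Prot.const c _ _ b fun y hy x hx => hb x hx y hy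
  | alice c A B S _ _ ih₁ ih₂ => exact Prot.bob c _ _ S ih₁ ih₂
  | bob c A B S _ _ ih₁ ih₂ => exact Prot.alice c _ _ S ih₁ ih₂

lemma prot_congr {X Y : Type*} {F F' : X → Y → Bool} {c : ℕ} {A : Set X} {B : Set Y}
    (h : Prot F c A B) (hF : ∀ x ∈ A, ∀ y ∈ B, F' x y = F x y) : Prot F' c A B := by
  induction h with
  | const c A B b hb => exact Prot.const c _ _ b fun x hx y hy => (hF x hx y hy).trans (hb x hx y hy)
  | alice c A B S _ _ ih₁ ih₂ =>
    exact Prot.alice c _ _ S (ih₁ fun x hx y hy => hF x hx.1 y hy)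
      (ih₂ fun x hx y hy => hF x hx.1 y hy)
  | bob c A B S _ _ ih₁ ih₂ =>
    exact Prot.bob c _ _ S (ih₁ fun x hx y hy => hF x hx y hy.1)
      (ih₂ fun x hx y hy => hF x hx y hy.1)

/-- the row -/
def row {X Y : Type} (F : X → Y → Bool) (x : X) : Y → ℝ := fun y => chi (F x y)

/-- the real rank of the communication matrix of `F` -/
noncomputable def realRank {X Y : Type} [Fintype X] [Fintype Y] (F : X → Y → Bool) : ℕ :=
  (Matrix.of (fun (x : X) (y : Y) => if F x y then (1 : ℝ) else 0)).rank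

variable {X Y : Type} [Fintype X] [Fintype Y]

/-- the values of the functionals -/
noncomputable def five : Finset ℝ := {-2, -1, 0, 1, 2}

lemma five_card : five.card ≤ 5 := by
  unfold five
  exact card_le_five

lemma mem_five (a b c e : Bool) : chi a - chi b - chi c + chi e ∈ five := by
  unfold five
  simp only [mem_insert, mem_singleton]
  cases a <;> cases b <;> cases c <;> cases e <;> norm_num

/-- the classes of the rows modulo affine functions of the patterns -/
theorem classes (F : X → Y → Bool) {d k : ℕ} (s : Fin d → X) (σ : Fin d → Bool)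
    (hr : realRank F ≤ d + k) [Nonempty Y] (h : Geo fun y i => xor (F (s i) y) (σ i)) :
    ∃ g : X → ℕ, (∀ x, g x < 2 ^ (3 * k)) ∧ ∀ x x', g x = g x' →
      ∃ (a₀ : ℝ) (a : Fin d → ℝ), ∀ y, chi (F x y) - chi (F x' y) =
        a₀ + ∑ i, a i * chi (xor (F (s i) y) (σ i)) := by
  classical
  set e : Y → Fin d → Bool := fun y i => xor (F (s i) y) (σ i) with he
  let one : Y → ℝ := fun _ => 1
  let U : Submodule ℝ (Y → ℝ) := Submodule.span ℝ (Set.range (row F)) ⊔ Submodule.span ℝ {one}
  have hone : one ∈ U := Submodule.mem_sup_right (Submodule.mem_span_singleton_self _)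
  have hrow : ∀ x, row F x ∈ U := fun x =>
    Submodule.mem_sup_left (Submodule.subset_span ⟨x, rfl⟩)
  have hWU : aff e ≤ U := by
    unfold aff
    rw [Submodule.span_le]
    rintro _ ⟨o, rfl⟩
    cases o with
    | none => exact hone
    | some i =>
      have h1 : afam e (some i) = if σ i then one - row F (s i) else row F (s i) := by
        funext y
        rw [afam_some, he, chi_xor]
        cases σ i <;> rfl
      rw [SetLike.mem_coe, h1]
      split
      · exact U.sub_mem hone (hrow _)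
      · exact hrow _
  have hrk : Module.finrank ℝ (Submodule.span ℝ (Set.range (row F))) = realRank F := by
    unfold realRank
    rw [Matrix.rank_eq_finrank_span_row]
    rfl
  have hU : Module.finrank ℝ U ≤ Module.finrank ℝ (aff e) + k := by
    have h1 : Module.finrank ℝ U ≤ Module.finrank ℝ (Submodule.span ℝ (Set.range (row F))) +
        Module.finrank ℝ (Submodule.span ℝ {one}) := Submodule.finrank_add_le_finrank_add_finrank _ _
    have h2 : Module.finrank ℝ (Submodule.span ℝ {one}) ≤ 1 :=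
      (finrank_span_le_card ({one} : Set (Y → ℝ))).trans (by simp)
    rw [finrank_aff h]
    omega
  let φ : {q : Y × Y × Y × Y // Par e q} → (Y → ℝ) →ₗ[ℝ] ℝ := fun q =>
    (LinearMap.proj q.1.1 : (Y → ℝ) →ₗ[ℝ] ℝ) - LinearMap.proj q.1.2.1 - LinearMap.proj q.1.2.2.1 +
      LinearMap.proj q.1.2.2.2
  have hφ : ∀ q u, φ q u = u q.1.1 - u q.1.2.1 - u q.1.2.2.1 + u q.1.2.2.2 := fun q u => rfl
  obtain ⟨J, hJ, hJ2⟩ := few_functionals φ (aff e) (fun q u hu => by
    rw [hφ]; exact par_aff hu q.1 q.2) k U hWU (fun u _ hu => mem_aff.2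
      (affine_of_par h u fun q hq => hu ⟨q, hq⟩)) hU
  obtain ⟨g, hg, hg2⟩ := few_classes J five five_card k hJ (fun x q => φ q (row F x))
    (fun x q => by rw [hφ]; exact mem_five _ _ _ _)
  refine ⟨g, fun x => (hg x).trans_le ?_, fun x x' hxx => ?_⟩
  · rw [pow_mul]
    exact Nat.pow_le_pow_left (by norm_num) _
  · have h1 := hJ2 (row F x - row F x') (U.sub_mem (hrow x) (hrow x')) (fun q hq => by
      rw [map_sub, sub_eq_zero]
      exact hg2 x x' hxx q hq)
    exact mem_aff.1 h1

omit [Fintype Y] in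
/-- quadratic polynomials in the coordinates are affine functions of the products -/
lemma quad {d : ℕ} (e : Y → Fin d → Bool) (a₀ : ℝ) (a : Fin d → ℝ) (α β γ : ℝ) :
    ∃ (c : ℝ) (w : Fin (d * d) → ℝ), ∀ y,
      α + β * (a₀ + ∑ i, a i * chi (e y i)) + γ * (a₀ + ∑ i, a i * chi (e y i)) ^ 2 =
        c + ∑ p, if (e y (finProdFinEquiv.symm p).1 && e y (finProdFinEquiv.symm p).2) then w p
          else 0 := by
  classical
  refine ⟨α + β * a₀ + γ * a₀ ^ 2, fun p => γ * (a (finProdFinEquiv.symm p).1 *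
    a (finProdFinEquiv.symm p).2) + (if (finProdFinEquiv.symm p).1 = (finProdFinEquiv.symm p).2 then
      (β + 2 * γ * a₀) * a (finProdFinEquiv.symm p).1 else 0), fun y => ?_⟩
  have h1 : ∑ p : Fin (d * d), (if (e y (finProdFinEquiv.symm p).1 && e y (finProdFinEquiv.symm p).2)
      then γ * (a (finProdFinEquiv.symm p).1 *
    a (finProdFinEquiv.symm p).2) + (if (finProdFinEquiv.symm p).1 = (finProdFinEquiv.symm p).2 then
      (β + 2 * γ * a₀) * a (finProdFinEquiv.symm p).1 else 0) else 0) =
      ∑ q : Fin d × Fin d, (if (e y q.1 && e y q.2) then γ * (a q.1 * a q.2) +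
        (if q.1 = q.2 then (β + 2 * γ * a₀) * a q.1 else 0) else 0) :=
    Equiv.sum_comp finProdFinEquiv.symm (fun q : Fin d × Fin d => if (e y q.1 && e y q.2) then
      γ * (a q.1 * a q.2) + (if q.1 = q.2 then (β + 2 * γ * a₀) * a q.1 else 0) else 0)
  rw [h1, Fintype.sum_prod_type]
  have h2 : ∀ i j, (if (e y i && e y j) then γ * (a i * a j) +
        (if i = j then (β + 2 * γ * a₀) * a i else 0) else 0) =
      γ * ((a i * chi (e y i)) * (a j * chi (e y j))) +
        (if i = j then (β + 2 * γ * a₀) * (a i * chi (e y i)) else 0) := by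
    intro i j
    by_cases hij : i = j
    · subst hij
      cases h : e y i <;> simp
    · cases h : e y i <;> cases h' : e y j <;> simp [hij]
  simp only [h2, Finset.sum_add_distrib, Finset.sum_ite_eq, mem_univ, if_true, ← Finset.mul_sum,
    ← Finset.sum_mul]
  ring

/-- the main protocol -/
theorem prot_main (F : X → Y → Bool) {d k : ℕ} (s : Fin d → X) (σ : Fin d → Bool)
    (hr : realRank F ≤ d + k) (h : Geo fun y i => xor (F (s i) y) (σ i)) :
    Prot F (3 * k + (1620 * (Nat.clog 2 (d * d + 3)) ^ 6 + 2)) Set.univ Set.univ := by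
  classical
  rcases isEmpty_or_nonempty Y with hY | hY
  · exact Prot.const _ _ _ false fun x _ y => (hY.false y).elim
  set e : Y → Fin d → Bool := fun y i => xor (F (s i) y) (σ i) with he
  obtain ⟨g, hg, hg2⟩ := classes F s σ hr h
  rw [show 3 * k + (1620 * (Nat.clog 2 (d * d + 3)) ^ 6 + 2) =
    (1620 * (Nat.clog 2 (d * d + 3)) ^ 6 + 1 + 1) + 3 * k by ring]
  refine Prot.alice_index (3 * k) g 0 (fun x _ => ⟨Nat.zero_le _, by rw [zero_add]; exact hg x⟩) ?_
  intro m
  by_cases hm : ∃ x₀, g x₀ = m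
  swap
  · refine Prot.const _ _ _ false fun x hx => ?_
    exact absurd ⟨x, hx.2⟩ hm
  obtain ⟨x₀, hx₀⟩ := hm
  let e' : Y → Fin (d * d) → Bool := fun y p =>
    e y (finProdFinEquiv.symm p).1 && e y (finProdFinEquiv.symm p).2
  have he' : ∀ y y', ∃ y'', ∀ p, e' y'' p = (e' y p && e' y' p) := by
    intro y y'
    obtain ⟨y'', hy''⟩ := h.meet y y'
    refine ⟨y'', fun p => ?_⟩
    change (e y'' _ && e y'' _) = _
    rw [show ∀ i, e y'' i = (e y i && e y' i) from hy'', show ∀ i, e y'' i = (e y i && e y' i)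
      from hy'']
    change _ = ((e y _ && e y _) && (e y' _ && e y' _))
    cases e y (finProdFinEquiv.symm p).1 <;> cases e y (finProdFinEquiv.symm p).2 <;>
      cases e y' (finProdFinEquiv.symm p).1 <;> cases e y' (finProdFinEquiv.symm p).2 <;> rfl
  refine Prot.bob _ _ _ {y | F x₀ y = true} ?_ ?_
  · -- `F x y = not (F x₀ y and not F x y)`
    have hp := prot_swap (feat_prot e' he' (fun (y : Y) (x : {x : X // g x = m}) =>
      (!F x₀ y || F x.1 y)) (by
        rintro ⟨x, hx⟩
        obtain ⟨a₀, a, ha⟩ := hg2 x x₀ (by rw [hx, hx₀])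
        obtain ⟨c, w, hcw⟩ := quad e a₀ a 1 (1 / 2) (-1 / 2)
        refine ⟨c, w, fun y => ?_⟩
        rw [← hcw y, ← ha y]
        cases F x y <;> cases F x₀ y <;> norm_num))
    have hp2 := prot_comap (F := fun (x : X) (y : Y) => if hx : g x = m then (!F x₀ y || F x y) else
      (!F x₀ y || F x₀ y)) (F' := fun (x : {x : X // g x = m}) (y : Y) => (!F x₀ y || F x.1 y))
      (fun x => if hx : g x = m then ⟨x, hx⟩ else ⟨x₀, hx₀⟩) id (fun x y => by
        by_cases hx : g x = m
        · simp only [hx, dif_pos, id]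
        · simp only [hx, dif_neg, not_false_eq_true, id]) hp
    refine prot_congr (hp2.mono (Set.subset_univ _) (Set.subset_univ _)) fun x hx y hy => ?_
    have h1 : g x = m := hx.2
    have h2 : F x₀ y = true := hy.2
    simp [h1, h2]
  · have hp := prot_swap (feat_prot e' he' (fun (y : Y) (x : {x : X // g x = m}) =>
      (!F x₀ y && F x.1 y)) (by
        rintro ⟨x, hx⟩
        obtain ⟨a₀, a, ha⟩ := hg2 x x₀ (by rw [hx, hx₀])
        obtain ⟨c, w, hcw⟩ := quad e a₀ a 0 (1 / 2) (1 / 2)
        refine ⟨c, w, fun y => ?_⟩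
        rw [← hcw y, ← ha y]
        cases F x y <;> cases F x₀ y <;> norm_num))
    have hp2 := prot_comap (F := fun (x : X) (y : Y) => if hx : g x = m then (!F x₀ y && F x y) else
      (!F x₀ y && F x₀ y)) (F' := fun (x : {x : X // g x = m}) (y : Y) => (!F x₀ y && F x.1 y))
      (fun x => if hx : g x = m then ⟨x, hx⟩ else ⟨x₀, hx₀⟩) id (fun x y => by
        by_cases hx : g x = m
        · simp only [hx, dif_pos, id]
        · simp only [hx, dif_neg, not_false_eq_true, id]) hp
    refine prot_congr (hp2.mono (Set.subset_univ _) (Set.subset_univ _)) fun x hx y hy => ?_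
    have h1 : g x = m := hx.2
    have h2 : F x₀ y = false := by
      have := hy.2
      simpa using this
    simp [h1, h2]

omit [Fintype Y] in
/-- on the full cube an affine function with values `-1, 0, 1` depends on at most two
coordinates -/
lemma supp_two {d : ℕ} (e : Y → Fin d → Bool) (hall : ∀ p : Fin d → Bool, ∃ y, ∀ i, e y i = p i)
    (a₀ : ℝ) (a : Fin d → ℝ)
    (hv : ∀ y, ∃ n : ℤ, a₀ + ∑ i, a i * chi (e y i) = n ∧ -1 ≤ n ∧ n ≤ 1) :
    (univ.filter fun i => a i ≠ 0).card ≤ 2 := by
  classical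
  -- integrality
  have hint : ∀ i, a i ≠ 0 → 1 ≤ |a i| := by
    intro i hi
    obtain ⟨y, hy⟩ := hall fun k => decide (k = i)
    obtain ⟨y', hy'⟩ := hall fun _ => false
    obtain ⟨n, hn, -⟩ := hv y
    obtain ⟨n', hn', -⟩ := hv y'
    have h1 : ∑ k, a k * chi (e y k) = a i := by
      rw [Finset.sum_eq_single i]
      · rw [hy]; simp
      · intro k _ hk
        rw [hy]; simp [hk]
      · intro hh; exact absurd (mem_univ _) hh
    have h2 : ∑ k, a k * chi (e y' k) = 0 := Finset.sum_eq_zero fun k _ => by rw [hy']; simp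
    rw [h1] at hn
    rw [h2] at hn'
    have h3 : a i = ((n - n' : ℤ) : ℝ) := by push_cast; linarith
    have h4 : n - n' ≠ 0 := by
      intro hh
      rw [hh] at h3
      exact hi (by simpa using h3)
    rw [h3, ← Int.cast_abs]
    have : (1 : ℤ) ≤ |n - n'| := Int.one_le_abs h4
    exact_mod_cast this
  obtain ⟨y, hy⟩ := hall fun k => decide (0 < a k)
  obtain ⟨y', hy'⟩ := hall fun k => decide (a k < 0)
  obtain ⟨n, hn, hn1, hn2⟩ := hv y
  obtain ⟨n', hn', hn1', hn2'⟩ := hv y'
  have h1 : ∑ k, a k * chi (e y k) - ∑ k, a k * chi (e y' k) = ∑ k, |a k| := by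
    rw [← Finset.sum_sub_distrib]
    refine Finset.sum_congr rfl fun k _ => ?_
    rw [hy, hy']
    rcases lt_trichotomy (a k) 0 with hk | hk | hk
    · simp [hk, not_lt.2 hk.le, abs_of_neg hk]
    · simp [hk]
    · simp [hk, not_lt.2 hk.le, abs_of_pos hk]
  have h2 : ∑ k, |a k| ≤ 2 := by
    have : (n : ℝ) ≤ 1 := by exact_mod_cast hn2
    have : (-1 : ℝ) ≤ (n' : ℝ) := by exact_mod_cast hn1'
    linarith
  have h3 : ((univ.filter fun i => a i ≠ 0).card : ℝ) ≤ ∑ k, |a k| := by
    calc ((univ.filter fun i => a i ≠ 0).card : ℝ) = ∑ i ∈ univ.filter fun i => a i ≠ 0, (1 : ℝ) := by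
          simp
      _ ≤ ∑ i ∈ univ.filter fun i => a i ≠ 0, |a i| :=
          Finset.sum_le_sum fun i hi => hint i (mem_filter.1 hi).2
      _ ≤ ∑ k, |a k| := Finset.sum_le_sum_of_subset_of_nonneg (filter_subset _ _)
          fun _ _ _ => abs_nonneg _
  have h4 : ((univ.filter fun i => a i ≠ 0).card : ℝ) ≤ 2 := h3.trans h2
  exact_mod_cast h4

omit [Fintype Y] in
lemma geo_of_all {d : ℕ} (e : Y → Fin d → Bool) (hall : ∀ p : Fin d → Bool, ∃ y, ∀ i, e y i = p i) :
    Geo e := by
  classical
  refine ⟨fun y y' => hall fun i => (e y i && e y' i), fun y y' hle hne => ?_, fun i =>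
    ⟨?_, ?_⟩⟩
  · obtain ⟨i, hi⟩ := hne
    have h1 : e y i = true := by
      by_contra hcon
      have h2 : e y i = false := by simpa using hcon
      have h3 : e y' i = true := by
        rw [h2] at hi
        simpa using hi
      exact hcon (hle i h3)
    have h2 : e y' i = false := by
      rw [h1] at hi
      simpa using hi
    obtain ⟨y'', hy''⟩ := hall fun k => (e y k && decide (k ≠ i))
    exact ⟨i, y'', h1, h2, hy''⟩
  · obtain ⟨y, hy⟩ := hall fun _ => true
    exact ⟨y, hy i⟩
  · obtain ⟨y, hy⟩ := hall fun _ => false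
    exact ⟨y, hy i⟩

/-- a coordinate, or `false` -/
def bit {d : ℕ} (e : Y → Fin d → Bool) (o : Option (Fin d)) (y : Y) : Bool :=
  match o with
  | none => false
  | some i => e y i

omit [Fintype X] [Fintype Y] in
lemma code_inj {b c e b' c' e' : Bool} (h : (if b then 4 else 0) + (if c then 2 else 0) +
    (if e then 1 else 0) = (if b' then 4 else 0) + (if c' then 2 else 0) + (if e' then 1 else 0)) :
    b = b' ∧ c = c' ∧ e = e' := by
  cases b <;> cases c <;> cases e <;> cases b' <;> cases c' <;> cases e' <;> simp at h ⊢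

/-- the protocol for a shattered set of rows -/
theorem prot_cube (F : X → Y → Bool) {d k : ℕ} (s : Fin d → X) (σ : Fin d → Bool)
    (hr : realRank F ≤ d + k)
    (hall : ∀ p : Fin d → Bool, ∃ y, ∀ i, xor (F (s i) y) (σ i) = p i) :
    Prot F (3 * k + (2 * Nat.clog 2 (d + 1) + 4)) Set.univ Set.univ := by
  classical
  have h : Geo fun y i => xor (F (s i) y) (σ i) := geo_of_all _ hall
  have : Nonempty Y := by
    obtain ⟨y, -⟩ := hall fun _ => true
    exact ⟨y⟩
  set e : Y → Fin d → Bool := fun y i => xor (F (s i) y) (σ i) with he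
  obtain ⟨g, hg, hg2⟩ := classes F s σ hr h
  rw [show 3 * k + (2 * Nat.clog 2 (d + 1) + 4) = (1 + 3 + 2 * Nat.clog 2 (d + 1)) + 3 * k by ring]
  refine Prot.alice_index (3 * k) g 0 (fun x _ => ⟨Nat.zero_le _, by rw [zero_add]; exact hg x⟩) ?_
  intro m
  by_cases hm : ∃ x₀, g x₀ = m
  swap
  · refine Prot.const _ _ _ false fun x hx => ?_
    exact absurd ⟨x, hx.2⟩ hm
  obtain ⟨x₀, hx₀⟩ := hm
  have hex : ∀ x, g x = m → ∃ (a₀ : ℝ) (a : Fin d → ℝ) (o : Option (Fin d) × Option (Fin d)),
      (∀ y, chi (F x y) - chi (F x₀ y) = a₀ + ∑ i, a i * chi (e y i)) ∧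
      ∀ l, a l ≠ 0 → o.1 = some l ∨ o.2 = some l := by
    intro x hx
    obtain ⟨a₀, a, ha⟩ := hg2 x x₀ (by rw [hx, hx₀])
    have hc := supp_two e hall a₀ a (fun y => by
      rw [← ha y]
      cases F x y <;> cases F x₀ y
      · exact ⟨0, by simp⟩
      · exact ⟨-1, by simp⟩
      · exact ⟨1, by simp⟩
      · exact ⟨0, by simp⟩)
    by_cases h0 : (univ.filter fun i => a i ≠ 0) = ∅
    · refine ⟨a₀, a, (none, none), ha, fun l hl => ?_⟩
      have : l ∈ univ.filter fun i => a i ≠ 0 := by simpa using hl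
      rw [h0] at this
      simp at this
    · obtain ⟨i, hi⟩ := Finset.nonempty_iff_ne_empty.2 h0
      by_cases h1 : ((univ.filter fun i => a i ≠ 0).erase i) = ∅
      · refine ⟨a₀, a, (some i, none), ha, fun l hl => ?_⟩
        by_cases hli : l = i
        · left; rw [hli]
        · have : l ∈ (univ.filter fun i => a i ≠ 0).erase i :=
            mem_erase.2 ⟨hli, by simpa using hl⟩
          rw [h1] at this
          simp at this
      · obtain ⟨j, hj⟩ := Finset.nonempty_iff_ne_empty.2 h1
        have h2 : (((univ.filter fun i => a i ≠ 0).erase i).erase j).card = 0 := by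
          rw [card_erase_of_mem hj, card_erase_of_mem hi]
          omega
        refine ⟨a₀, a, (some i, some j), ha, fun l hl => ?_⟩
        by_cases hli : l = i
        · left; rw [hli]
        by_cases hlj : l = j
        · right; rw [hlj]
        have : l ∈ ((univ.filter fun i => a i ≠ 0).erase i).erase j :=
          mem_erase.2 ⟨hlj, mem_erase.2 ⟨hli, by simpa using hl⟩⟩
        rw [card_eq_zero.1 h2] at this
        simp at this
  choose! a₀ a o ha using hex
  have hcard : Fintype.card (Option (Fin d) × Option (Fin d)) = (d + 1) * (d + 1) := by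
    simp
  have hpow : (d + 1) * (d + 1) ≤ 2 ^ (2 * Nat.clog 2 (d + 1)) := by
    have h1 : d + 1 ≤ 2 ^ Nat.clog 2 (d + 1) := Nat.le_pow_clog (by norm_num) _
    calc (d + 1) * (d + 1) ≤ 2 ^ Nat.clog 2 (d + 1) * 2 ^ Nat.clog 2 (d + 1) :=
          Nat.mul_le_mul h1 h1
      _ = 2 ^ (2 * Nat.clog 2 (d + 1)) := by rw [← pow_add]; congr 1; ring
  refine Prot.alice_index (2 * Nat.clog 2 (d + 1))
    (fun x => (Fintype.equivFin (Option (Fin d) × Option (Fin d)) (o x) : ℕ)) 0
    (fun x _ => ⟨Nat.zero_le _, ?_⟩) ?_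
  · rw [zero_add]
    refine (Fintype.equivFin (Option (Fin d) × Option (Fin d)) (o x)).2.trans_le ?_
    rw [hcard]
    exact hpow
  intro m'
  by_cases hm' : ∃ x₁, g x₁ = m ∧
    (Fintype.equivFin (Option (Fin d) × Option (Fin d)) (o x₁) : ℕ) = m'
  swap
  · refine Prot.const _ _ _ false fun x hx => ?_
    exact absurd ⟨x, hx.1.2, hx.2⟩ hm'
  obtain ⟨x₁, hx₁, hx₁'⟩ := hm'
  refine Prot.bob_index 3 (fun y => (if F x₀ y then 4 else 0) + (if bit e (o x₁).1 y then 2 else 0) +
    (if bit e (o x₁).2 y then 1 else 0)) 0 (fun y _ => ⟨Nat.zero_le _, ?_⟩) ?_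
  · cases F x₀ y <;> cases bit e (o x₁).1 y <;> cases bit e (o x₁).2 y <;> norm_num
  intro m''
  refine prot_simple (Or.inr fun x hx y hy y' hy' => ?_)
  have hgx : g x = m := hx.1.2
  have hox : o x = o x₁ := (Fintype.equivFin (Option (Fin d) × Option (Fin d))).injective
    (Fin.ext (hx.2.trans hx₁'.symm))
  obtain ⟨h1, h2⟩ := ha x hgx
  obtain ⟨hb1, hb2, hb3⟩ := code_inj ((show _ = m'' from hy.2).trans
    (show _ = m'' from hy'.2).symm)
  have h3 : ∑ i, a x i * chi (e y i) = ∑ i, a x i * chi (e y' i) := by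
    refine Finset.sum_congr rfl fun l _ => ?_
    by_cases hl : a x l = 0
    · rw [hl, zero_mul, zero_mul]
    · rcases h2 l hl with h4 | h4
      · rw [hox] at h4
        rw [h4] at hb2
        have : e y l = e y' l := hb2
        rw [this]
      · rw [hox] at h4
        rw [h4] at hb3
        have : e y l = e y' l := hb3
        rw [this]
  have h5 := h1 y
  have h6 := h1 y'
  rw [h3, ← h6, hb1] at h5
  exact chi_inj (by linarith)

end Pool.Agent.Run7.h515.LR
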