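import Pool.Agent.Run7.h515.LR.Deg
import Pool.Agent.Run7.h515.LR.Main

set_option autoImplicit false

/-!
# Protocols for low-rank perturbations of low-degree polynomials on locally convex families
-/

namespace Pool.Agent.Run7.h515.LR

open Finset Pool.Agent.Q174.TD Pool.Agent.Q174.AF

variable {X Y : Type} {d : ℕ}

/-- the integers of absolute value at most `2 ^ j` -/
noncomputable def smallInts (j : ℕ) : Finset ℝ :=
  (Finset.Icc (-(2 : ℤ) ^ j) (2 ^ j)).image fun n : ℤ => (n : ℝ)

lemma smallInts_card (j : ℕ) : (smallInts j).card ≤ 2 ^ (j + 2) := by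
  unfold smallInts
  refine card_image_le.trans ?_
  rw [Int.card_Icc, Int.toNat_le]
  push_cast
  have h1 : (1 : ℤ) ≤ 2 ^ j := one_le_pow₀ (by norm_num)
  rw [pow_add]
  linarith

lemma mem_smallInts {j : ℕ} {n : ℤ} (h : |n| ≤ 2 ^ j) : (n : ℝ) ∈ smallInts j := by
  unfold smallInts
  rw [mem_image]
  refine ⟨n, ?_, rfl⟩
  rw [Finset.mem_Icc]
  exact abs_le.1 h

lemma Wd_fiber {pat : Y → Finset (Fin d)} {m : ℕ} {u : Y → ℝ} (hu : u ∈ Wd pat m) {y y' : Y}
    (hyy : pat y = pat y') : u y = u y' := by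
  unfold Wd at hu
  induction hu using Submodule.span_induction with
  | zero => rfl
  | add u v _ _ hu hv => simp only [Pi.add_apply, hu, hv]
  | smul a u _ hu => simp only [Pi.smul_apply, hu]
  | mem u h =>
    obtain ⟨S, hS, rfl⟩ := h
    simp only [mono, hyy]

/-- the classes of the rows modulo the polynomials of degree at most `j` -/
theorem classes_gen [Finite Y] (F : X → Y → Bool) {pat : Y → Finset (Fin d)} (h : LCG pat)
    (j k : ℕ)
    (U : Submodule ℝ (Y → ℝ)) (hrow : ∀ x, row F x ∈ U) (hWU : Wd pat j ≤ U)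
    (hU : Module.finrank ℝ U ≤ Module.finrank ℝ (Wd pat j) + k) :
    ∃ g : X → ℕ, (∀ x, g x < 2 ^ ((j + 2) * k)) ∧ ∀ x x', g x = g x' →
      row F x - row F x' ∈ Wd pat j := by
  classical
  have := Fintype.ofFinite Y
  let φ : ({p : Y × Y // pat p.1 = pat p.2} ⊕ Cube pat j) → (Y → ℝ) →ₗ[ℝ] ℝ :=
    Sum.elim (fun p => (LinearMap.proj p.1.1 : (Y → ℝ) →ₗ[ℝ] ℝ) - LinearMap.proj p.1.2)
      (fun q => cubeL q)
  have hφ1 : ∀ p u, φ (Sum.inl p) u = u p.1.1 - u p.1.2 := fun p u => rfl
  have hφ2 : ∀ q u, φ (Sum.inr q) u = cubeL q u := fun q u => rfl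
  obtain ⟨J, hJ, hJ2⟩ := few_functionals φ (Wd pat j) (fun q u hu => by
    cases q with
    | inl p => rw [hφ1, Wd_fiber hu p.2, sub_self]
    | inr q => rw [hφ2]; exact cubeL_Wd q hu) k U hWU (fun u _ hu => deg_le h u
      (fun y y' hyy => by
        have := hu (Sum.inl ⟨(y, y'), hyy⟩)
        rw [hφ1] at this
        exact sub_eq_zero.1 this) (fun q => hu (Sum.inr q))) hU
  obtain ⟨g, hg, hg2⟩ := few_classes' J (smallInts j) (2 ^ (j + 2)) (Nat.one_le_two_pow)
    (smallInts_card j) k hJ (fun x q => φ q (row F x)) (fun x q => by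
      cases q with
      | inl p =>
        rw [hφ1]
        have h1 : (1 : ℤ) ≤ 2 ^ j := one_le_pow₀ (by norm_num)
        have h2 : row F x p.1.1 - row F x p.1.2 = (((if F x p.1.1 then 1 else 0) -
          (if F x p.1.2 then 1 else 0) : ℤ) : ℝ) := by
          push_cast
          rfl
        rw [h2]
        refine mem_smallInts (le_trans ?_ h1)
        split <;> split <;> norm_num
      | inr q =>
        rw [hφ2]
        obtain ⟨n, hn, hn2⟩ := cubeL_bool q (F x)
        have h2 : cubeL q (row F x) = n := hn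
        rw [h2]
        exact mem_smallInts hn2)
  refine ⟨g, fun x => (hg x).trans_le ?_, fun x x' hxx => ?_⟩
  · rw [← pow_mul]
  · refine hJ2 (row F x - row F x') (U.sub_mem (hrow x) (hrow x')) fun q hq => ?_
    rw [map_sub, sub_eq_zero]
    exact hg2 x x' hxx q hq

/-- lists of coordinates -/
noncomputable def eqv (d m : ℕ) : (Fin m → Option (Fin d)) ≃ Fin ((d + 1) ^ m) :=
  Fintype.equivFinOfCardEq (by simp)

lemma rep {pat : Y → Finset (Fin d)} {m : ℕ} {u : Y → ℝ} (hu : u ∈ Wd pat m) :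
    ∃ w : Fin ((d + 1) ^ m) → ℝ, ∀ y, u y = ∑ p, if supp ((eqv d m).symm p) ⊆ pat y then w p
      else 0 := by
  classical
  have h1 : Wd pat m ≤ Submodule.span ℝ (Set.range fun p : Fin ((d + 1) ^ m) =>
      mono pat (supp ((eqv d m).symm p))) := by
    unfold Wd
    rw [Submodule.span_le]
    rintro _ ⟨S, hS, rfl⟩
    obtain ⟨q, hq⟩ := exists_supp (m := m) S hS
    refine Submodule.subset_span ⟨eqv d m q, ?_⟩
    simp only [Equiv.symm_apply_apply, hq]
  obtain ⟨w, hw⟩ := (Submodule.mem_span_range_iff_exists_fun ℝ).1 (h1 hu)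
  refine ⟨w, fun y => ?_⟩
  rw [← hw, Finset.sum_apply]
  refine Finset.sum_congr rfl fun p _ => ?_
  rw [Pi.smul_apply, smul_eq_mul, mono]
  split <;> simp

/-- the protocol -/
theorem prot_of_classes [Finite X] [Finite Y] (F : X → Y → Bool) {pat : Y → Finset (Fin d)} (h : LCG pat)
    (j L : ℕ) (g : X → ℕ) (hg : ∀ x, g x < 2 ^ L)
    (hg2 : ∀ x x', g x = g x' → row F x - row F x' ∈ Wd pat j) :
    Prot F (L + (1620 * (Nat.clog 2 ((d + 1) ^ (2 * j) + 3)) ^ 6 + 2)) Set.univ Set.univ := by
  classical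
  have := Fintype.ofFinite Y
  have := Fintype.ofFinite X
  rcases isEmpty_or_nonempty Y with hY | hY
  · exact Prot.const _ _ _ false fun x _ y => (hY.false y).elim
  rw [show L + (1620 * (Nat.clog 2 ((d + 1) ^ (2 * j) + 3)) ^ 6 + 2) =
    (1620 * (Nat.clog 2 ((d + 1) ^ (2 * j) + 3)) ^ 6 + 1 + 1) + L by ring]
  refine Prot.alice_index L g 0 (fun x _ => ⟨Nat.zero_le _, by rw [zero_add]; exact hg x⟩) ?_
  intro m
  by_cases hm : ∃ x₀, g x₀ = m
  swap
  · refine Prot.const _ _ _ false fun x hx => ?_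
    exact absurd ⟨x, hx.2⟩ hm
  obtain ⟨x₀, hx₀⟩ := hm
  let e' : Y → Fin ((d + 1) ^ (2 * j)) → Bool := fun y p =>
    decide (supp ((eqv d (2 * j)).symm p) ⊆ pat y)
  have he' : ∀ y y', ∃ y'', ∀ p, e' y'' p = (e' y p && e' y' p) := by
    intro y y'
    obtain ⟨y'', hy''⟩ := h.meet y y'
    refine ⟨y'', fun p => ?_⟩
    change decide _ = (decide _ && decide _)
    rw [hy'', ← Bool.decide_and]
    exact decide_eq_decide.2 subset_inter_iff
  have hquad : ∀ x, g x = m → ∀ α β γ : ℝ, ∃ (c : ℝ) (w : Fin ((d + 1) ^ (2 * j)) → ℝ), ∀ y,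
      α + β * (chi (F x y) - chi (F x₀ y)) + γ * (chi (F x y) - chi (F x₀ y)) ^ 2 =
        c + ∑ p, if e' y p then w p else 0 := by
    intro x hx α β γ
    have h1 := hg2 x x₀ (by rw [hx, hx₀])
    have h2 : (α • (1 : Y → ℝ) + β • (row F x - row F x₀) +
        γ • ((row F x - row F x₀) * (row F x - row F x₀))) ∈ Wd pat (2 * j) := by
      refine Submodule.add_mem _ (Submodule.add_mem _ (Submodule.smul_mem _ _ (one_mem _ _))
        (Submodule.smul_mem _ _ (Wd_mono pat (by omega) h1))) (Submodule.smul_mem _ _ ?_)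
      rw [two_mul]
      exact mul_mem_Wd h1 h1
    obtain ⟨w, hw⟩ := rep h2
    refine ⟨0, w, fun y => ?_⟩
    have h3 := hw y
    have h4 : (α • (1 : Y → ℝ) + β • (row F x - row F x₀) +
        γ • ((row F x - row F x₀) * (row F x - row F x₀))) y =
        α + β * (chi (F x y) - chi (F x₀ y)) + γ * (chi (F x y) - chi (F x₀ y)) ^ 2 := by
      simp only [Pi.add_apply, Pi.smul_apply, Pi.sub_apply, Pi.mul_apply, Pi.one_apply,
        smul_eq_mul, mul_one, row]
      ring
    rw [← h4, h3, zero_add]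
    refine Finset.sum_congr rfl fun p _ => ?_
    simp only [e', decide_eq_true_eq]
  refine Prot.bob _ _ _ {y | F x₀ y = true} ?_ ?_
  · have hp := prot_swap (feat_prot e' he' (fun (y : Y) (x : {x : X // g x = m}) =>
      (!F x₀ y || F x.1 y)) (by
        rintro ⟨x, hx⟩
        obtain ⟨c, w, hcw⟩ := hquad x hx 1 (1 / 2) (-1 / 2)
        refine ⟨c, w, fun y => ?_⟩
        rw [← hcw y]
        cases F x y <;> cases F x₀ y <;> norm_num))
    have hp2 := prot_comap (F := fun (x : X) (y : Y) => if hx : g x = m then (!F x₀ y || F x y) else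
      (!F x₀ y || F x₀ y)) (F' := fun (x : {x : X // g x = m}) (y : Y) => (!F x₀ y || F x.1 y))
      (fun x => if hx : g x = m then ⟨x, hx⟩ else ⟨x₀, hx₀⟩) id (fun x y => by
        by_cases hx : g x = m
        · simp only [hx, dif_pos, id]
        · simp only [hx, dif_neg, not_false_eq_true, id]) hp
    refine prot_congr (hp2.mono (Set.subset_univ _) (Set.subset_univ _)) fun x hx y hy => ?_
    have h1 : g x = m := hx.2
    have h2 : F x₀ y = true := hy.2
    simp [h1, h2]
  · have hp := prot_swap (feat_prot e' he' (fun (y : Y) (x : {x : X // g x = m}) =>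
      (!F x₀ y && F x.1 y)) (by
        rintro ⟨x, hx⟩
        obtain ⟨c, w, hcw⟩ := hquad x hx 0 (1 / 2) (1 / 2)
        refine ⟨c, w, fun y => ?_⟩
        rw [← hcw y]
        cases F x y <;> cases F x₀ y <;> norm_num))
    have hp2 := prot_comap (F := fun (x : X) (y : Y) => if hx : g x = m then (!F x₀ y && F x y) else
      (!F x₀ y && F x₀ y)) (F' := fun (x : {x : X // g x = m}) (y : Y) => (!F x₀ y && F x.1 y))
      (fun x => if hx : g x = m then ⟨x, hx⟩ else ⟨x₀, hx₀⟩) id (fun x y => by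
        by_cases hx : g x = m
        · simp only [hx, dif_pos, id]
        · simp only [hx, dif_neg, not_false_eq_true, id]) hp
    refine prot_congr (hp2.mono (Set.subset_univ _) (Set.subset_univ _)) fun x hx y hy => ?_
    have h1 : g x = m := hx.2
    have h2 : F x₀ y = false := by
      have := hy.2
      simpa using this
    simp [h1, h2]

/-- **Low-rank perturbations of polynomials of degree at most `j`.** -/
theorem prot_gen [Finite X] [Finite Y] (F : X → Y → Bool) {pat : Y → Finset (Fin d)} (h : LCG pat)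
    (j k : ℕ) (gf : Fin k → Y → ℝ)
    (hF : ∀ x, ∃ (b : Fin k → ℝ) (a : Finset (Fin d) → ℝ), (∀ S, j < S.card → a S = 0) ∧
      ∀ y, (if F x y then (1 : ℝ) else 0) = ∑ i, b i * gf i y +
        ∑ S, if S ⊆ pat y then a S else 0) :
    Prot F ((j + 2) * k + (1620 * (Nat.clog 2 ((d + 1) ^ (2 * j) + 3)) ^ 6 + 2))
      Set.univ Set.univ := by
  classical
  have := Fintype.ofFinite Y
  let U : Submodule ℝ (Y → ℝ) := Submodule.span ℝ (Set.range gf) ⊔ Wd pat j
  have hrow : ∀ x, row F x ∈ U := by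
    intro x
    obtain ⟨b, a, ha, hba⟩ := hF x
    have h1 : row F x = ∑ i, b i • gf i + ∑ S, a S • mono pat S := by
      funext y
      rw [Pi.add_apply, Finset.sum_apply, Finset.sum_apply]
      have := hba y
      unfold row chi
      rw [this]
      congr 1
      refine Finset.sum_congr rfl fun S _ => ?_
      rw [Pi.smul_apply, smul_eq_mul, mono]
      split <;> simp
    rw [h1]
    refine Submodule.add_mem _ (Submodule.mem_sup_left (Submodule.sum_mem _ fun i _ =>
      Submodule.smul_mem _ _ (Submodule.subset_span ⟨i, rfl⟩))) (Submodule.mem_sup_right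
      (Submodule.sum_mem _ fun S _ => ?_))
    by_cases hS : S.card ≤ j
    · exact Submodule.smul_mem _ _ (mono_mem hS)
    · rw [ha S (by omega), zero_smul]
      exact Submodule.zero_mem _
  have hU : Module.finrank ℝ U ≤ Module.finrank ℝ (Wd pat j) + k := by
    have h1 : Module.finrank ℝ U ≤ Module.finrank ℝ (Submodule.span ℝ (Set.range gf)) +
        Module.finrank ℝ (Wd pat j) := Submodule.finrank_add_le_finrank_add_finrank _ _
    have h2 : Module.finrank ℝ (Submodule.span ℝ (Set.range gf)) ≤ k :=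
      (finrank_range_le_card gf).trans (by simp)
    omega
  obtain ⟨g, hg, hg2⟩ := classes_gen F h j k U hrow le_sup_right hU
  exact prot_of_classes F h j _ g hg hg2

end Pool.Agent.Run7.h515.LR
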