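import Mathlib

set_option autoImplicit false

/-!
# Functions on intersection-closed families which are locally convex geometries

A real function on such a family whose second differences along all parallelograms vanish is an
affine function of the characteristic vector.
-/

namespace Pool.Agent.Run7.h515.LR

open Finset

/-! ## functionals -/

/-- few functionals which separate from `W` -/
lemma few_functionals {V : Type*} [AddCommGroup V] [Module ℝ V] [FiniteDimensional ℝ V]
    {ι : Type*} [DecidableEq ι] (φ : ι → V →ₗ[ℝ] ℝ) (W : Submodule ℝ V)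
    (hW : ∀ q, ∀ u ∈ W, φ q u = 0) :
    ∀ (n : ℕ) (K : Submodule ℝ V), W ≤ K → (∀ u ∈ K, (∀ q, φ q u = 0) → u ∈ W) →
      Module.finrank ℝ K ≤ Module.finrank ℝ W + n →
      ∃ J : Finset ι, J.card ≤ n ∧ ∀ u ∈ K, (∀ q ∈ J, φ q u = 0) → u ∈ W := by
  intro n
  induction n with
  | zero =>
    intro K hWK hsep hdim
    refine ⟨∅, le_rfl, fun u hu _ => ?_⟩
    have := Submodule.eq_of_le_of_finrank_le hWK (by simpa using hdim)
    rw [this]; exact hu
  | succ n ih =>
    intro K hWK hsep hdim
    by_cases h : K ≤ W
    · exact ⟨∅, by simp, fun u hu _ => h hu⟩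
    · obtain ⟨u, huK, huW⟩ := SetLike.not_le_iff_exists.1 h
      have : ∃ q, φ q u ≠ 0 := by
        by_contra hcon
        push Not at hcon
        exact huW (hsep u huK hcon)
      obtain ⟨q, hq⟩ := this
      have hlt : K ⊓ LinearMap.ker (φ q) < K := by
        refine lt_of_le_of_ne inf_le_left fun he => hq ?_
        have : u ∈ K ⊓ LinearMap.ker (φ q) := by rw [he]; exact huK
        exact this.2
      obtain ⟨J, hJ, hJ2⟩ := ih (K ⊓ LinearMap.ker (φ q))
        (le_inf hWK fun w hw => hW q w hw) (fun u hu h => hsep u hu.1 h)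
        (by
          have := Submodule.finrank_lt_finrank_of_lt hlt
          omega)
      refine ⟨insert q J, (card_insert_le _ _).trans (by omega), fun u hu h => ?_⟩
      exact hJ2 u ⟨hu, h q (mem_insert_self _ _)⟩ fun q' hq' => h q' (mem_insert_of_mem hq')

/-- few classes -/
lemma few_classes {X ι : Type*} [DecidableEq ι] (J : Finset ι) (T : Finset ℝ)
    (hT : T.card ≤ 5) (n : ℕ) (hJ : J.card ≤ n) (v : X → ι → ℝ) (hv : ∀ x q, v x q ∈ T) :
    ∃ g : X → ℕ, (∀ x, g x < 5 ^ n) ∧ ∀ x x', g x = g x' → ∀ q ∈ J, v x q = v x' q := by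
  classical
  let h : X → (J → T) := fun x q => ⟨v x q.1, hv x q.1⟩
  refine ⟨fun x => (Fintype.equivFin (J → T) (h x) : ℕ), fun x => ?_, fun x x' he q hq => ?_⟩
  · refine (Fintype.equivFin (J → T) (h x)).2.trans_le ?_
    rw [Fintype.card_fun, Fintype.card_coe, Fintype.card_coe]
    calc T.card ^ J.card ≤ 5 ^ J.card := Nat.pow_le_pow_left hT _
      _ ≤ 5 ^ n := Nat.pow_le_pow_right (by norm_num) hJ
  · have h1 : h x = h x' := (Fintype.equivFin (J → T)).injective (Fin.ext he)
    exact congrArg Subtype.val (congrFun h1 ⟨q, hq⟩)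

/-! ## geometry -/

/-- `0` or `1` -/
def chi (b : Bool) : ℝ := if b then 1 else 0

@[simp] lemma chi_true : chi true = 1 := rfl
@[simp] lemma chi_false : chi false = 0 := rfl

lemma chi_xor (b c : Bool) : chi (xor b c) = if c then 1 - chi b else chi b := by
  cases b <;> cases c <;> simp

lemma chi_inj {b c : Bool} (h : chi b = chi c) : b = c := by
  cases b <;> cases c <;> simp at h ⊢

variable {Y : Type*} {d : ℕ}

/-- the family of the patterns `e y` is closed under intersection, and is locally a convex
geometry; all coordinates are used -/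
structure Geo (e : Y → Fin d → Bool) : Prop where
  meet : ∀ y y', ∃ y'', ∀ i, e y'' i = (e y i && e y' i)
  step : ∀ y y', (∀ i, e y' i = true → e y i = true) → (∃ i, e y' i ≠ e y i) →
    ∃ j y'', e y j = true ∧ e y' j = false ∧ ∀ i, e y'' i = (e y i && decide (i ≠ j))
  used : ∀ i, (∃ y, e y i = true) ∧ ∃ y, e y i = false

/-- parallelograms -/
def Par (e : Y → Fin d → Bool) (q : Y × Y × Y × Y) : Prop :=
  ∀ i, chi (e q.1 i) - chi (e q.2.1 i) - chi (e q.2.2.1 i) + chi (e q.2.2.2 i) = 0

lemma bottom {e : Y → Fin d → Bool} (h : Geo e) [Nonempty Y] : ∃ y, ∀ i, e y i = false := by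
  classical
  have key : ∀ s : Finset (Fin d), ∃ y, ∀ i ∈ s, e y i = false := by
    intro s
    induction s using Finset.induction_on with
    | empty => exact ⟨Classical.arbitrary Y, fun i hi => by simp at hi⟩
    | insert i s _ ih =>
      obtain ⟨y, hy⟩ := ih
      obtain ⟨y', hy'⟩ := (h.used i).2
      obtain ⟨y'', hy''⟩ := h.meet y y'
      refine ⟨y'', fun k hk => ?_⟩
      rw [hy'']
      rcases mem_insert.1 hk with rfl | hk
      · rw [hy']; simp
      · rw [hy k hk]; simp
  obtain ⟨y, hy⟩ := key univ
  exact ⟨y, fun i => hy i (mem_univ _)⟩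

/-- the number of elements of the pattern -/
noncomputable def sz (e : Y → Fin d → Bool) (y : Y) : ℕ := (univ.filter fun i => e y i = true).card

lemma sz_pos {e : Y → Fin d → Bool} {y : Y} {i : Fin d} (h : e y i = true) : 0 < sz e y :=
  card_pos.2 ⟨i, by simpa using h⟩

lemma sz_lt {e : Y → Fin d → Bool} {y y'' : Y} {j : Fin d} (hj : e y j = true)
    (h : ∀ i, e y'' i = (e y i && decide (i ≠ j))) : sz e y'' < sz e y := by
  classical
  refine card_lt_card ⟨fun i hi => ?_, fun hsub => ?_⟩
  · simp only [mem_filter, mem_univ, true_and] at hi ⊢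
    rw [h] at hi
    simp at hi
    exact hi.1
  · have := hsub (show j ∈ univ.filter (fun i => e y i = true) by simpa using hj)
    simp only [mem_filter, mem_univ, true_and] at this
    rw [h] at this
    simp at this

/-- `(y, y')` is an edge in direction `i` -/
def Edge (e : Y → Fin d → Bool) (i : Fin d) (y y' : Y) : Prop :=
  e y i = true ∧ ∀ k, e y' k = (e y k && decide (k ≠ i))

/-- edges exist below every element -/
lemma exists_edge {e : Y → Fin d → Bool} (h : Geo e) [Nonempty Y] (i : Fin d) :
    ∃ y y', Edge e i y y' := by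
  obtain ⟨y0, hy0⟩ := bottom h
  have key : ∀ n y, sz e y ≤ n → e y i = true → ∃ y y', Edge e i y y' := by
    intro n
    induction n with
    | zero => intro y hn hy; exact absurd (sz_pos hy) (by omega)
    | succ n ih =>
      intro y hn hy
      obtain ⟨j, y'', hj, -, hy''⟩ := h.step y y0 (fun k hk => by rw [hy0] at hk; simp at hk)
        ⟨i, by rw [hy0, hy]; simp⟩
      by_cases hij : j = i
      · subst hij; exact ⟨y, y'', hj, hy''⟩
      · refine ih y'' ?_ ?_
        · have := sz_lt hj hy''; omega
        · rw [hy'', hy]; simp [Ne.symm hij]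
  obtain ⟨y, hy⟩ := (h.used i).1
  exact key _ y le_rfl hy

section sep

variable {e : Y → Fin d → Bool} (h : Geo e) (u : Y → ℝ)
  (hu : ∀ q, Par e q → u q.1 - u q.2.1 - u q.2.2.1 + u q.2.2.2 = 0)

include hu in
lemma fiber {y y' : Y} (he : ∀ i, e y i = e y' i) : u y = u y' := by
  have := hu (y, y', y, y) (fun i => by simp only [he i]; ring)
  simp only at this
  linarith

include h hu in
lemma edge_down : ∀ n y y' t t' i, sz e y ≤ n → Edge e i y y' → Edge e i t t' →
    (∀ k, e t k = true → e y k = true) → u y - u y' = u t - u t' := by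
  intro n
  induction n with
  | zero => intro y y' t t' i hn hy _ _; exact absurd (sz_pos hy.1) (by omega)
  | succ n ih =>
    intro y y' t t' i hn hy ht hle
    by_cases heq : ∀ k, e t k = e y k
    · rw [fiber u hu (fun k => (heq k).symm), fiber u hu (y := y') (y' := t')
        (fun k => by rw [hy.2, ht.2, heq])]
    · push Not at heq
      obtain ⟨j, y'', hj, htj, hy''⟩ := h.step y t hle heq
      have hij : j ≠ i := by
        rintro rfl
        rw [ht.1] at htj
        simp at htj
      obtain ⟨y3, hy3⟩ := h.meet y' y''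
      have h1 : u y - u y' - u y'' + u y3 = 0 := by
        refine hu (y, y', y'', y3) fun k => ?_
        simp only
        rw [hy3, hy.2, hy'']
        by_cases hk : e y k = true
        · rw [hk]
          by_cases hki : k = i
          · subst hki
            have : k ≠ j := Ne.symm hij
            simp [this]
          · by_cases hkj : k = j
            · subst hkj
              simp [hki]
            · simp [hki, hkj]
        · have : e y k = false := by simpa using hk
          rw [this]; simp
      have h2 := ih y'' y3 t t' i (by have := sz_lt hj hy''; omega) ⟨by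
        rw [hy'', hy.1]; simp [Ne.symm hij], fun k => by
        rw [hy3, hy.2, hy'']
        cases e y k <;> cases decide (k ≠ i) <;> cases decide (k ≠ j) <;> rfl⟩ ht (fun k hk => by
        rw [hy'', hle k hk]
        simp only [Bool.true_and, decide_eq_true_eq]
        rintro rfl
        rw [hk] at htj
        simp at htj)
      linarith

include h hu in
lemma edge_all {y y' z z' : Y} {i : Fin d} (hy : Edge e i y y') (hz : Edge e i z z') :
    u y - u y' = u z - u z' := by
  obtain ⟨t, ht⟩ := h.meet y z
  obtain ⟨t', ht'⟩ := h.meet y' z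
  have hE : Edge e i t t' := by
    refine ⟨by rw [ht, hy.1, hz.1]; rfl, fun k => ?_⟩
    rw [ht', ht, hy.2]
    cases e y k <;> cases e z k <;> cases decide (k ≠ i) <;> rfl
  rw [edge_down h u hu _ y y' t t' i le_rfl hy hE (fun k hk => by
      rw [ht] at hk; simp at hk; exact hk.1),
    edge_down h u hu _ z z' t t' i le_rfl hz hE (fun k hk => by
      rw [ht] at hk; simp at hk; exact hk.2)]

include h hu in
theorem affine_of_par [Nonempty Y] :
    ∃ (a₀ : ℝ) (a : Fin d → ℝ), ∀ y, u y = a₀ + ∑ i, a i * chi (e y i) := by
  classical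
  obtain ⟨y0, hy0⟩ := bottom h
  have hex := fun i => exists_edge h i
  choose p p' hp using hex
  refine ⟨u y0, fun i => u (p i) - u (p' i), ?_⟩
  have key : ∀ n y, sz e y ≤ n → u y = u y0 + ∑ i, (u (p i) - u (p' i)) * chi (e y i) := by
    intro n
    induction n with
    | zero =>
      intro y hn
      have hf : ∀ i, e y i = false := by
        intro i
        by_contra hcon
        have : e y i = true := by simpa using hcon
        exact absurd (sz_pos this) (by omega)
      rw [fiber u hu (y := y) (y' := y0) (fun i => by rw [hf, hy0])]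
      simp [hf]
    | succ n ih =>
      intro y hn
      by_cases hf : ∀ i, e y i = false
      · rw [fiber u hu (y := y) (y' := y0) (fun i => by rw [hf, hy0])]
        simp [hf]
      · push Not at hf
        obtain ⟨i, hi⟩ := hf
        obtain ⟨j, y'', hj, -, hy''⟩ := h.step y y0 (fun k hk => by rw [hy0] at hk; simp at hk)
          ⟨i, by rw [hy0]; exact fun hh => hi hh.symm⟩
        have h1 := edge_all h u hu (y := y) (y' := y'') ⟨hj, hy''⟩ (hp j)
        have h2 := ih y'' (by have := sz_lt hj hy''; omega)
        have h3 : ∑ i, (u (p i) - u (p' i)) * chi (e y i) =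
            ∑ i, (u (p i) - u (p' i)) * chi (e y'' i) + (u (p j) - u (p' j)) := by
          rw [← Finset.add_sum_erase _ _ (mem_univ j), ← Finset.add_sum_erase univ
            (fun i => (u (p i) - u (p' i)) * chi (e y'' i)) (mem_univ j)]
          have h4 : ∑ i ∈ univ.erase j, (u (p i) - u (p' i)) * chi (e y i) =
              ∑ i ∈ univ.erase j, (u (p i) - u (p' i)) * chi (e y'' i) := by
            refine Finset.sum_congr rfl fun i hi => ?_
            rw [hy'']
            simp [(mem_erase.1 hi).1]
          rw [h4, hj, hy'']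
          simp
          ring
        rw [h3]
        linarith
  exact fun y => key _ y le_rfl

end sep

/-- the constant function `1` and the coordinates -/
def afam (e : Y → Fin d → Bool) (o : Option (Fin d)) : Y → ℝ :=
  match o with
  | none => fun _ => 1
  | some i => fun y => chi (e y i)

@[simp] lemma afam_none (e : Y → Fin d → Bool) (y : Y) : afam e none y = 1 := rfl
@[simp] lemma afam_some (e : Y → Fin d → Bool) (i : Fin d) (y : Y) :
    afam e (some i) y = chi (e y i) := rfl

/-- the affine functions of the patterns -/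
def aff (e : Y → Fin d → Bool) : Submodule ℝ (Y → ℝ) :=
  Submodule.span ℝ (Set.range (afam e))

lemma mem_aff {e : Y → Fin d → Bool} {u : Y → ℝ} : u ∈ aff e ↔
    ∃ (a₀ : ℝ) (a : Fin d → ℝ), ∀ y, u y = a₀ + ∑ i, a i * chi (e y i) := by
  constructor
  · intro hu
    unfold aff at hu
    rw [Submodule.mem_span_range_iff_exists_fun] at hu
    obtain ⟨c, hc⟩ := hu
    refine ⟨c none, fun i => c (some i), fun y => ?_⟩
    rw [← hc]
    simp only [Fintype.sum_option, Finset.sum_apply, Pi.smul_apply, smul_eq_mul,
      mul_one, afam_none, afam_some]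
  · rintro ⟨a₀, a, h⟩
    unfold aff
    rw [Submodule.mem_span_range_iff_exists_fun]
    refine ⟨fun o => match o with
      | none => a₀
      | some i => a i, ?_⟩
    funext y
    rw [h y]
    simp only [Fintype.sum_option, Finset.sum_apply, Pi.smul_apply, smul_eq_mul,
      mul_one, afam_none, afam_some]

lemma par_aff {e : Y → Fin d → Bool} {u : Y → ℝ} (hu : u ∈ aff e) (q : Y × Y × Y × Y)
    (hq : Par e q) : u q.1 - u q.2.1 - u q.2.2.1 + u q.2.2.2 = 0 := by
  obtain ⟨a₀, a, h⟩ := mem_aff.1 hu
  rw [h, h, h, h]
  have : ∑ i, a i * (chi (e q.1 i) - chi (e q.2.1 i) - chi (e q.2.2.1 i) + chi (e q.2.2.2 i)) = 0 :=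
    Finset.sum_eq_zero fun i _ => by rw [hq i, mul_zero]
  simp only [mul_add, mul_sub, Finset.sum_add_distrib, Finset.sum_sub_distrib] at this
  linarith

lemma finrank_aff {e : Y → Fin d → Bool} (h : Geo e) [Nonempty Y] :
    Module.finrank ℝ (aff e) = d + 1 := by
  classical
  have hli : LinearIndependent ℝ (afam e) := by
    rw [Fintype.linearIndependent_iff]
    intro g hg
    have hev : ∀ y, g none + ∑ i, g (some i) * chi (e y i) = 0 := by
      intro y
      have := congrFun hg y
      simpa only [Fintype.sum_option, Finset.sum_apply, Pi.smul_apply, smul_eq_mul,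
        mul_one, Pi.zero_apply, Pi.add_apply, afam_none, afam_some] using this
    obtain ⟨y0, hy0⟩ := bottom h
    have h0 : g none = 0 := by
      have := hev y0
      simpa [hy0] using this
    intro o
    cases o with
    | none => exact h0
    | some i =>
      obtain ⟨y, y', hy, hy'⟩ := exists_edge h i
      have h1 := hev y
      have h2 := hev y'
      rw [← Finset.add_sum_erase _ _ (mem_univ i)] at h1 h2
      have h4 : ∑ k ∈ univ.erase i, g (some k) * chi (e y' k) =
          ∑ k ∈ univ.erase i, g (some k) * chi (e y k) := by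
        refine Finset.sum_congr rfl fun k hk => ?_
        rw [hy']
        simp [(mem_erase.1 hk).1]
      rw [h4, hy'] at h2
      rw [hy] at h1
      simp at h1 h2
      linarith
  unfold aff
  rw [finrank_span_eq_card hli]
  simp

end Pool.Agent.Run7.h515.LR
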